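import Pool.Agent.MP_77ae5d_pr.H74.Main

open MeasureTheory Pool.Agent.MP_77ae5d_pr.H74

namespace Pool.Agent.Results.MP_77ae5d_pr.Counterexample

/-- An invariant, ergodic, finite energy, FKG bond percolation on the square lattice that
percolates almost surely, but almost surely does not percolate in the upper half-plane. -/
theorem result :
    ∃ μ : Measure (Z2.edgeSet → Bool), IsProbabilityMeasure μ ∧
      (∀ φ : SimpleGraph.Iso Z2 Z2, μ.map (fun ω e => ω (φ.mapEdgeSet e)) = μ) ∧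
      (∀ (φ : SimpleGraph.Iso Z2 Z2) (t : ℤ × ℤ), t ≠ 0 → (∀ v, φ v = v + t) →
        Ergodic (fun (ω : Z2.edgeSet → Bool) e => ω (φ.mapEdgeSet e)) μ) ∧
      (∀ e : Z2.edgeSet, ∀ᵐ ω ∂μ,
        0 < condExp (cylinderEvents {e}ᶜ) μ
          ({ω' : Z2.edgeSet → Bool | ω' e = true}.indicator (fun _ => (1 : ℝ))) ω ∧
        condExp (cylinderEvents {e}ᶜ) μ
          ({ω' : Z2.edgeSet → Bool | ω' e = true}.indicator (fun _ => (1 : ℝ))) ω < 1) ∧
      (∀ A B : Set (Z2.edgeSet → Bool), MeasurableSet A → MeasurableSet B →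
        IsUpperSet A → IsUpperSet B → μ A * μ B ≤ μ (A ∩ B)) ∧
      (∀ᵐ ω ∂μ, HasInfiniteComponent (openGraph ω)) ∧
      (∀ᵐ ω ∂μ, ¬ HasInfiniteComponent ((openGraph ω).induce {v : ℤ × ℤ | 0 ≤ v.2})) :=
  ⟨mu, inferInstance, mu_invariant, mu_ergodic, mu_finite_energy,
    fun _ _ hA hB uA uB => mu_fkg hA hB uA uB, mu_perc, mu_half⟩

end Pool.Agent.Results.MP_77ae5d_pr.Counterexample
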